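import Mathlib
import Pool.Agent.H673.LongCycle

set_option autoImplicit false

namespace Pool.Agent.Results.MP_395f85_co.ArcTransitive

open Finset

open scoped Classical in
/-- The set of arcs of the digraph of a weight function: the ordered pairs of positive weight. -/
noncomputable def arcs {V : Type} [Fintype V] (w : V → V → ℝ) : Finset (V × V) :=
  univ.filter fun p => 0 < w p.1 p.2

/-- `g` is an automorphism of the digraph (it need not respect the weights). -/
def IsAut {V : Type} (w : V → V → ℝ) (g : Equiv.Perm V) : Prop :=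
  ∀ u v, 0 < w (g u) (g v) ↔ 0 < w u v

/-- averaging one cycle over the automorphisms -/
theorem aux (V : Type) [Fintype V] [Nonempty V] (w : V → V → ℝ)
    (h0 : ∀ u v, 0 ≤ w u v)
    (hin : ∀ v, 1 ≤ ∑ u, w u v)
    (htrans : ∀ a b c d, 0 < w a b → 0 < w c d → ∃ g, IsAut w g ∧ g a = c ∧ g b = d)
    (k : ℕ) (f : Fin (k + 2) → V) (hf : Function.Injective f)
    (hfa : ∀ i, 0 < w (f i) (f (finRotate (k + 2) i)))
    (hlen : (arcs w).card ≤ (k + 2) * Fintype.card V) :
    ∃ h : Fin (k + 2) → V, Function.Injective h ∧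
      (∀ i, 0 < w (h i) (h (finRotate (k + 2) i))) ∧
      ((k : ℝ) + 2) * Fintype.card V / (arcs w).card ≤
        ∑ i, w (h i) (h (finRotate (k + 2) i)) ∧
      1 ≤ ∑ i, w (h i) (h (finRotate (k + 2) i)) := by
  classical
  set G : Finset (Equiv.Perm V) := univ.filter fun g => IsAut w g with hG
  have hGm : ∀ g, g ∈ G ↔ IsAut w g := by intro g; rw [hG, mem_filter]; simp
  have hmul : ∀ g h : Equiv.Perm V, IsAut w h → (IsAut w (g * h) ↔ IsAut w g) := by
    intro g h hh
    constructor
    · intro hgh u v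
      have := hgh (h.symm u) (h.symm v)
      simp only [Equiv.Perm.coe_mul, Function.comp_apply, Equiv.apply_symm_apply] at this
      rw [this]
      have h2 := hh (h.symm u) (h.symm v)
      simp only [Equiv.apply_symm_apply] at h2
      exact h2.symm
    · intro hg u v
      simp only [Equiv.Perm.coe_mul, Function.comp_apply]
      rw [hg, hh]
  have h1G : (1 : Equiv.Perm V) ∈ G := (hGm 1).2 fun u v => by simp
  set X : V → V → ℝ := fun a b => ∑ g ∈ G, w (g a) (g b) with hX
  have hconst : ∀ a b c d, 0 < w a b → 0 < w c d → X c d = X a b := by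
    intro a b c d hab hcd
    obtain ⟨h, hh, rfl, rfl⟩ := htrans a b c d hab hcd
    simp only [hX]
    refine Finset.sum_equiv (Equiv.mulRight h) ?_ ?_
    · intro g
      rw [hGm, hGm]
      exact (hmul g h hh).symm
    · intro g _
      rfl
  -- total weight
  set W : ℝ := ∑ p ∈ arcs w, w p.1 p.2 with hW
  have hWn : (Fintype.card V : ℝ) ≤ W := by
    have e1 : W = ∑ p : V × V, w p.1 p.2 := by
      rw [hW]
      apply Finset.sum_subset (subset_univ _)
      intro p _ hp
      unfold arcs at hp
      rw [mem_filter] at hp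
      push Not at hp
      exact le_antisymm (hp (mem_univ _)) (h0 _ _)
    rw [e1, Fintype.sum_prod_type_right]
    calc (Fintype.card V : ℝ) = ∑ _v : V, (1 : ℝ) := by simp
      _ ≤ ∑ v : V, ∑ u : V, w u v := Finset.sum_le_sum fun v _ => hin v
  have hsum : ∑ p ∈ arcs w, X p.1 p.2 = G.card * W := by
    simp only [hX]
    rw [Finset.sum_comm, ← nsmul_eq_mul, ← Finset.sum_const]
    refine Finset.sum_congr rfl fun g hg => ?_
    rw [hW]
    refine Finset.sum_equiv (Equiv.prodCongr g g) ?_ ?_
    · intro p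
      unfold arcs
      rw [mem_filter, mem_filter]
      simp only [mem_univ, true_and, Equiv.prodCongr_apply, Prod.map_fst, Prod.map_snd]
      exact ((hGm g).1 hg p.1 p.2).symm
    · intro p _
      rfl
  set x : ℝ := X (f 0) (f (finRotate (k + 2) 0)) with hx
  have hsum2 : ∑ p ∈ arcs w, X p.1 p.2 = (arcs w).card * x := by
    rw [← nsmul_eq_mul, ← Finset.sum_const]
    refine Finset.sum_congr rfl fun p hp => ?_
    unfold arcs at hp
    rw [mem_filter] at hp
    exact hconst _ _ _ _ (hfa 0) hp.2
  have hcyc : ∑ g ∈ G, ∑ i, w (g (f i)) (g (f (finRotate (k + 2) i))) = ((k : ℝ) + 2) * x := by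
    rw [Finset.sum_comm]
    have : ∀ i ∈ (univ : Finset (Fin (k + 2))),
        ∑ g ∈ G, w (g (f i)) (g (f (finRotate (k + 2) i))) = x := by
      intro i _
      exact hconst _ _ _ _ (hfa 0) (hfa i)
    rw [Finset.sum_congr rfl this, Finset.sum_const, nsmul_eq_mul]
    simp
  have hApos : 0 < (arcs w).card := by
    rw [card_pos]
    refine ⟨(f 0, f (finRotate (k + 2) 0)), ?_⟩
    unfold arcs
    rw [mem_filter]
    exact ⟨mem_univ _, hfa 0⟩
  have hApos' : (0 : ℝ) < (arcs w).card := by exact_mod_cast hApos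
  -- an automorphism that is at least as good as the average
  have hex : ∃ g ∈ G, ((k : ℝ) + 2) * Fintype.card V / (arcs w).card ≤
      ∑ i, w (g (f i)) (g (f (finRotate (k + 2) i))) := by
    apply Finset.exists_le_of_sum_le ⟨1, h1G⟩
    rw [hcyc, Finset.sum_const, nsmul_eq_mul]
    have hAx : (arcs w).card * x = G.card * W := by rw [← hsum2, hsum]
    have h3 : x = G.card * W / (arcs w).card := by
      field_simp
      linarith
    rw [h3]
    have h4 : (G.card : ℝ) * Fintype.card V ≤ G.card * W :=
      mul_le_mul_of_nonneg_left hWn (Nat.cast_nonneg _)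
    have hk : (0 : ℝ) ≤ (k : ℝ) + 2 := by positivity
    calc (G.card : ℝ) * (((k : ℝ) + 2) * Fintype.card V / (arcs w).card)
        = ((k : ℝ) + 2) * ((G.card : ℝ) * Fintype.card V) / (arcs w).card := by ring
      _ ≤ ((k : ℝ) + 2) * (G.card * W) / (arcs w).card := by
          apply div_le_div_of_nonneg_right _ hApos'.le
          exact mul_le_mul_of_nonneg_left h4 hk
      _ = ((k : ℝ) + 2) * (G.card * W / (arcs w).card) := by ring
  obtain ⟨g, hg, hgw⟩ := hex
  refine ⟨fun i => g (f i), g.injective.comp hf, fun i => ((hGm g).1 hg _ _).2 (hfa i), hgw, ?_⟩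
  refine le_trans ?_ hgw
  rw [le_div_iff₀ hApos', one_mul]
  have : ((arcs w).card : ℝ) ≤ ((k + 2) * Fintype.card V : ℕ) := by exact_mod_cast hlen
  refine this.trans (le_of_eq ?_)
  push_cast
  ring

/-- In a digraph whose automorphism group is transitive on the arcs, with all in-weights and
out-weights at least one, there is a cycle of weight at least `1 + |V| / |A|`. -/
theorem result (V : Type) [Fintype V] [Nonempty V] (w : V → V → ℝ)
    (h0 : ∀ u v, 0 ≤ w u v) (hloop : ∀ v, w v v = 0)
    (hin : ∀ v, 1 ≤ ∑ u, w u v) (hout : ∀ v, 1 ≤ ∑ u, w v u)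
    (htrans : ∀ a b c d, 0 < w a b → 0 < w c d → ∃ g, IsAut w g ∧ g a = c ∧ g b = d) :
    ∃ (k : ℕ) (f : Fin (k + 2) → V), Function.Injective f ∧
      (∀ i, 0 < w (f i) (f (finRotate (k + 2) i))) ∧
      1 + (Fintype.card V : ℝ) / (arcs w).card ≤ ∑ i, w (f i) (f (finRotate (k + 2) i)) := by
  classical
  have hex : ∀ v, ∃ u, 0 < w v u := by
    intro v
    by_contra h
    push Not at h
    have : ∑ u, w v u ≤ 0 := Finset.sum_nonpos fun u _ => h u
    linarith [hout v]
  set N : V → Finset V := fun v => univ.filter fun u => 0 < w v u with hN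
  have hNm : ∀ v u, u ∈ N v ↔ 0 < w v u := by
    intro v u
    simp [hN]
  obtain ⟨v0⟩ := (inferInstance : Nonempty V)
  set d := (N v0).card with hd
  have hdeg : ∀ v, (N v).card = d := by
    intro v
    obtain ⟨b, hb⟩ := hex v0
    obtain ⟨c, hc⟩ := hex v
    obtain ⟨g, hg, h1, h2⟩ := htrans v0 b v c hb hc
    have : N v = (N v0).map g.toEmbedding := by
      ext u
      rw [mem_map_equiv, hNm, hNm]
      have := hg v0 (g.symm u)
      rw [h1, Equiv.apply_symm_apply] at this
      exact this
    rw [this, card_map]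
  have hd1 : 1 ≤ d := by
    obtain ⟨b, hb⟩ := hex v0
    exact card_pos.2 ⟨b, (hNm _ _).2 hb⟩
  obtain ⟨k, f, hf, hfa, hk⟩ := Pool.Agent.H673.LongCycle.long_cycle (fun u v => 0 < w u v)
    (fun v => by simp [hloop v]) d hd1 N hNm (fun v => (hdeg v).ge)
  have hA : (arcs w).card = Fintype.card V * d := by
    unfold arcs
    rw [card_filter, Fintype.sum_prod_type]
    have : ∀ v ∈ (univ : Finset V), (∑ u, if 0 < w v u then 1 else 0) = d := by
      intro v _
      rw [← card_filter, ← hdeg v]
    rw [Finset.sum_congr rfl this]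
    simp
  obtain ⟨h, hh1, hh2, hh3, _⟩ := aux V w h0 hin htrans k f hf hfa (by
    rw [hA, Nat.mul_comm]
    exact Nat.mul_le_mul_right _ (by omega))
  refine ⟨k, h, hh1, hh2, le_trans ?_ hh3⟩
  have hn : 0 < Fintype.card V := Fintype.card_pos
  have hApos : (0 : ℝ) < (arcs w).card := by
    rw [hA]
    exact_mod_cast Nat.mul_pos hn hd1
  have e1 : 1 + (Fintype.card V : ℝ) / (arcs w).card =
      ((arcs w).card + Fintype.card V) / (arcs w).card := by
    field_simp
  rw [e1]
  apply div_le_div_of_nonneg_right _ hApos.le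
  have h5 : (arcs w).card + Fintype.card V ≤ (k + 2) * Fintype.card V := by
    rw [hA]
    calc Fintype.card V * d + Fintype.card V = (d + 1) * Fintype.card V := by ring
      _ ≤ (k + 2) * Fintype.card V := Nat.mul_le_mul_right _ hk
  exact_mod_cast h5

end Pool.Agent.Results.MP_395f85_co.ArcTransitive
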